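import Pool.Agent.LibMatchingComplex.Homotopy

/-!
For every `n ≥ 3` and every integer `d`, the edge-deletion sequence
`0 → H̃_d(M_n \ e) → H̃_d(M_n) → ⟨e⟩ ⊗ H̃_{d-1}(L_e) → 0` is split exact.
-/

namespace Pool.Agent.Results.MP_728c4a_co.SplitExact

open Pool.Agent.LibSimpChain Pool.Agent.LibMatchingComplex

/-- `M_n`. -/
def M (n : ℕ) : Set (Finset (Sym2 (Fin n))) := matchingComplex Set.univ

/-- `M_n \ e` for `e = {a, b}`: the matchings of `[n]` not containing the edge `{a, b}`. -/
def deletion {n : ℕ} (a b : Fin n) : Set (Finset (Sym2 (Fin n))) := {σ | σ ∈ M n ∧ s(a,b) ∉ σ}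

/-- `L_e = M([n] \ {a, b})`, the link of the edge `e = {a, b}`. -/
def link {n : ℕ} (a b : Fin n) : Set (Finset (Sym2 (Fin n))) := matchingComplex {x | x ≠ a ∧ x ≠ b}

/-- Split exactness of the edge-deletion sequence for matching complexes.
The map `i` is induced by inclusion; the map `p` is the map to the relative homology of
`(M_n, M_n \ e)`, identified with `⟨e⟩ ⊗ H̃_{d-1}(L_e) = H̃_{d-1}(L_e)` by `{e} ∪ τ ↦ e ⊗ τ`.
The linear order on the set of vertices `Sym2 (Fin n)` is arbitrary and only fixes the signs of the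
boundary operator. -/
theorem result (n : ℕ) (hn : 3 ≤ n) [LinearOrder (Sym2 (Fin n))] (a b : Fin n) (hab : a ≠ b)
    (d : ℤ) :
    ∃ (i : HomH (deletion a b) d (M n) d) (p : HomH (M n) d (link a b) (d - 1)),
      IsInduced LinearMap.id i ∧ IsInduced (strip s(a,b)) p ∧ SplitExactH i p := by
  have hne : ({x : Fin n | x ≠ a ∧ x ≠ b}).Nonempty := by
    by_contra h
    rw [Set.not_nonempty_iff_eq_empty] at h
    have h1 : (Finset.univ : Finset (Fin n)) ⊆ {a, b} := by
      intro x _
      rw [Finset.mem_insert, Finset.mem_singleton]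
      by_contra hx
      push Not at hx
      have : x ∈ ({x : Fin n | x ≠ a ∧ x ≠ b}) := hx
      rw [h] at this
      exact this
    have h2 := Finset.card_le_card h1
    rw [Finset.card_univ, Fintype.card_fin] at h2
    have h3 : ({a, b} : Finset (Fin n)).card ≤ 2 := Finset.card_le_two
    omega
  exact matching_split (Set.mem_univ a) (Set.mem_univ b) hab (fun x => by simp) (Set.toFinite _) hne
    (fun σ => Iff.rfl) d

end Pool.Agent.Results.MP_728c4a_co.SplitExact
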